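import Pool.Agent.Q155.Essential.Dim

set_option autoImplicit false

/-! The disjoint rank is at least half of the essential rank, over every field. -/

namespace Pool.Agent.Results.MP_852b03_co.Half

open Module Q155.Essential

variable {F : Type*} [Field F] {Q₁ Q₂ : Finset ℕ}

/-- The essential rank: the least rank of `A + V`, where the support of `V` lies in the set of
diagonal positions `(x, x)`. -/
noncomputable def erk (A : Matrix Q₁ Q₂ F) : ℕ :=
  sInf {r | ∃ V : Matrix Q₁ Q₂ F, (∀ (i : Q₁) (j : Q₂), (i : ℕ) ≠ (j : ℕ) → V i j = 0) ∧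
    (A + V).rank = r}

/-- The disjoint rank: the largest rank of a submatrix `A (X₁ × X₂)` with `X₁ ⊆ Q₁`, `X₂ ⊆ Q₂`
and `X₁`, `X₂` disjoint. -/
noncomputable def drk (A : Matrix Q₁ Q₂ F) : ℕ :=
  sSup {r | ∃ (X₁ X₂ : Finset ℕ) (h₁ : X₁ ⊆ Q₁) (h₂ : X₂ ⊆ Q₂), Disjoint X₁ X₂ ∧
    (A.submatrix (fun i : X₁ => (⟨i, h₁ i.2⟩ : Q₁)) (fun j : X₂ => (⟨j, h₂ j.2⟩ : Q₂))).rank = r}

theorem le_drk (A : Matrix Q₁ Q₂ F) {X₁ X₂ : Finset ℕ} (h₁ : X₁ ⊆ Q₁) (h₂ : X₂ ⊆ Q₂)
    (hd : Disjoint X₁ X₂) :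
    (A.submatrix (fun i : X₁ => (⟨i, h₁ i.2⟩ : Q₁)) (fun j : X₂ => (⟨j, h₂ j.2⟩ : Q₂))).rank ≤ drk A := by
  apply le_csSup
  · refine ⟨Q₂.card, ?_⟩
    rintro r ⟨X₁, X₂, h₁, h₂, -, rfl⟩
    refine (Matrix.rank_submatrix_le A _ _).trans ?_
    have := Matrix.rank_le_card_width A
    rwa [Fintype.card_coe] at this
  · exact ⟨X₁, X₂, h₁, h₂, hd, rfl⟩

theorem erk_le (A V : Matrix Q₁ Q₂ F)
    (hV : ∀ (i : Q₁) (j : Q₂), (i : ℕ) ≠ (j : ℕ) → V i j = 0) : erk A ≤ (A + V).rank :=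
  Nat.sInf_le ⟨V, hV, rfl⟩

/-- The square extension of `A` by zero. -/
def ext (A : Matrix Q₁ Q₂ F) (i j : (Q₁ ∪ Q₂ : Finset ℕ)) : F :=
  if h : (i : ℕ) ∈ Q₁ ∧ (j : ℕ) ∈ Q₂ then A ⟨i, h.1⟩ ⟨j, h.2⟩ else 0

/-- The standard basis. -/
def ee (F : Type*) [Field F] (Q : Finset ℕ) (i : Q) : Q → F := Pi.single i 1

/-- The columns of the extension. -/
def aa (A : Matrix Q₁ Q₂ F) (j : (Q₁ ∪ Q₂ : Finset ℕ)) : (Q₁ ∪ Q₂ : Finset ℕ) → F :=
  fun i => ext A i j

theorem finrank_ee (Q : Finset ℕ) :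
    finrank F (Submodule.span F (Set.range (ee F Q))) = Fintype.card Q := by
  have h : ee F Q = Pi.basisFun F Q := by
    funext i
    rw [Pi.basisFun_apply]
    rfl
  rw [h, Basis.span_eq, finrank_top, Module.finrank_pi]

/-- The members of a matching are columns. -/
theorem mem_of_mat {A : Matrix Q₁ Q₂ F} {S : Finset (Q₁ ∪ Q₂ : Finset ℕ)}
    (hS : Mat F (ee F (Q₁ ∪ Q₂)) (aa A) S) {j : (Q₁ ∪ Q₂ : Finset ℕ)} (hj : j ∈ S) :
    (j : ℕ) ∈ Q₂ := by
  classical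
  by_contra hcon
  have h0 : aa A j = 0 := by
    funext i
    unfold aa ext
    rw [dif_neg (fun h => hcon h.2)]
    rfl
  have := hS (fun _ => 0) (fun i => if i = j then 1 else 0) (by
    apply Finset.sum_eq_zero
    intro i hi
    by_cases hij : i = j
    · subst hij
      simp [h0]
    · simp [hij]) j hj
  simp at this

theorem mat_card_le_drk (A : Matrix Q₁ Q₂ F) {S : Finset (Q₁ ∪ Q₂ : Finset ℕ)}
    (hS : Mat F (ee F (Q₁ ∪ Q₂)) (aa A) S) : S.card ≤ drk A := by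
  classical
  set X₂ : Finset ℕ := S.map (Function.Embedding.subtype _) with hX₂
  have hmem : ∀ i : (Q₁ ∪ Q₂ : Finset ℕ), (i : ℕ) ∈ X₂ ↔ i ∈ S := by
    intro i
    rw [hX₂, Finset.mem_map]
    constructor
    · rintro ⟨j, hj, hji⟩
      have : j = i := Subtype.ext hji
      rwa [← this]
    · intro hi
      exact ⟨i, hi, rfl⟩
  have h₂ : X₂ ⊆ Q₂ := by
    intro x hx
    rw [hX₂, Finset.mem_map] at hx
    obtain ⟨j, hj, rfl⟩ := hx
    exact mem_of_mat hS hj
  have h₁ : Q₁ \ X₂ ⊆ Q₁ := Finset.sdiff_subset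
  have hd : Disjoint (Q₁ \ X₂) X₂ := Finset.sdiff_disjoint
  refine le_trans ?_ (le_drk A h₁ h₂ hd)
  rw [Matrix.rank_eq_finrank_span_cols, finrank_span_eq_card, Fintype.card_coe, hX₂,
    Finset.card_map]
  rw [Fintype.linearIndependent_iff]
  intro c hc x
  set c' : (Q₁ ∪ Q₂ : Finset ℕ) → F := fun j => if h : (j : ℕ) ∈ X₂ then c ⟨j, h⟩ else 0 with hc'
  -- the combination of the columns vanishes outside `X₂`
  have hcomb : ∀ i : (Q₁ ∪ Q₂ : Finset ℕ), i ∉ S → ∑ j ∈ S, c' j * ext A i j = 0 := by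
    intro i hi
    by_cases hi1 : (i : ℕ) ∈ Q₁
    · have hiX : (i : ℕ) ∈ Q₁ \ X₂ := by
        rw [Finset.mem_sdiff, hmem]
        exact ⟨hi1, hi⟩
      have h1 := congrFun hc ⟨i, hiX⟩
      rw [Finset.sum_apply] at h1
      rw [Pi.zero_apply] at h1
      rw [← h1]
      symm
      have h2 : ∀ y : X₂, ((y : ℕ)) ∈ (Q₁ ∪ Q₂ : Finset ℕ) := fun y =>
        Finset.mem_union_right _ (h₂ y.2)
      refine Finset.sum_bij (fun (y : X₂) _ => (⟨y, h2 y⟩ : (Q₁ ∪ Q₂ : Finset ℕ))) ?_ ?_ ?_ ?_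
      · intro y _
        rw [← hmem]
        exact y.2
      · intro y _ z _ hyz
        have h5 : (y : ℕ) = (z : ℕ) := by simpa using hyz
        exact Subtype.ext h5
      · intro j hj
        exact ⟨⟨j, (hmem j).2 hj⟩, Finset.mem_univ _, rfl⟩
      · intro y _
        simp only [hc', ext, Pi.smul_apply, smul_eq_mul]
        rw [dif_pos y.2, dif_pos ⟨hi1, h₂ y.2⟩]
        rfl
    · apply Finset.sum_eq_zero
      intro j _
      unfold ext
      rw [dif_neg (fun h => hi1 h.1), mul_zero]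
  have h3 := hS (fun i => -∑ j ∈ S, c' j * ext A i j) c' (by
    funext i
    rw [Finset.sum_apply, Pi.zero_apply]
    simp only [Pi.add_apply, Pi.smul_apply, smul_eq_mul, aa, ee]
    rw [Finset.sum_add_distrib]
    by_cases hi : i ∈ S
    · rw [Finset.sum_eq_single i]
      · rw [Pi.single_eq_same, mul_one, neg_add_cancel]
      · intro j _ hji
        rw [Pi.single_eq_of_ne hji.symm, mul_zero]
      · intro h
        exact absurd hi h
    · rw [hcomb i hi, add_zero]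
      apply Finset.sum_eq_zero
      intro j hj
      have : i ≠ j := by
        rintro rfl
        exact hi hj
      rw [Pi.single_eq_of_ne this, mul_zero])
  obtain ⟨x, hx⟩ := x
  have hxS : (⟨x, Finset.mem_union_right _ (h₂ hx)⟩ : (Q₁ ∪ Q₂ : Finset ℕ)) ∈ S :=
    (hmem ⟨x, Finset.mem_union_right _ (h₂ hx)⟩).1 hx
  have h4 := (h3 _ hxS).2
  simp only [hc'] at h4
  rw [dif_pos hx] at h4
  exact h4

/-- For every field `F`, all finite `Q₁, Q₂ ⊆ ℕ` and every matrix `A : Q₁ × Q₂ → F`, the essential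
rank of `A` is at most twice its disjoint rank. -/
theorem result {F : Type*} [Field F] {Q₁ Q₂ : Finset ℕ} (A : Matrix Q₁ Q₂ F) :
    erk A ≤ 2 * drk A := by
  classical
  obtain ⟨v, hv⟩ := dim_main (F := F) _ ((Q₁ ∪ Q₂ : Finset ℕ) → F) (ee F (Q₁ ∪ Q₂)) (aa A)
    (drk A) rfl (fun S hS => mat_card_le_drk A hS)
  rw [finrank_ee] at hv
  have hv' : finrank F (Submodule.span F (Set.range fun i => aa A i + v i • ee F (Q₁ ∪ Q₂) i)) ≤
      2 * drk A := by omega
  set C : Matrix (Q₁ ∪ Q₂ : Finset ℕ) (Q₁ ∪ Q₂ : Finset ℕ) F :=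
    Matrix.of fun i j => ext A i j + (if i = j then v j else 0) with hC
  have hCrank : C.rank = finrank F (Submodule.span F
      (Set.range fun i => aa A i + v i • ee F (Q₁ ∪ Q₂) i)) := by
    rw [Matrix.rank_eq_finrank_span_cols]
    have : C.col = fun i => aa A i + v i • ee F (Q₁ ∪ Q₂) i := by
      funext j i
      rw [Matrix.col_apply, hC, Matrix.of_apply, Pi.add_apply, Pi.smul_apply, smul_eq_mul]
      unfold aa ee
      by_cases hij : i = j
      · subst hij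
        rw [if_pos rfl, Pi.single_eq_same, mul_one]
      · rw [if_neg hij, Pi.single_eq_of_ne hij, mul_zero]
    rw [this]
  set V : Matrix Q₁ Q₂ F := Matrix.of fun i j =>
    if (i : ℕ) = (j : ℕ) then v ⟨j, Finset.mem_union_right _ j.2⟩ else 0 with hV
  have h1 : A + V = C.submatrix
      (fun i : Q₁ => (⟨i, Finset.mem_union_left _ i.2⟩ : (Q₁ ∪ Q₂ : Finset ℕ)))
      (fun j : Q₂ => (⟨j, Finset.mem_union_right _ j.2⟩ : (Q₁ ∪ Q₂ : Finset ℕ))) := by
    ext i j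
    rw [Matrix.add_apply, hV, Matrix.of_apply, Matrix.submatrix_apply, hC, Matrix.of_apply]
    unfold ext
    rw [dif_pos ⟨i.2, j.2⟩]
    simp only [Subtype.mk.injEq, Subtype.coe_eta]
  calc erk A ≤ (A + V).rank := by
        apply erk_le
        intro i j hij
        rw [hV, Matrix.of_apply, if_neg hij]
    _ ≤ C.rank := by
        rw [h1]
        exact Matrix.rank_submatrix_le _ _ _
    _ ≤ 2 * drk A := by
        rw [hCrank]
        exact hv'

end Pool.Agent.Results.MP_852b03_co.Half
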